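import Mathlib
import Pool.Agent.L5helper9.NkDefs

/-!
# Many monic polynomials over the integers of a number field with a double root modulo a prime of
degree one (job 22 of helper9; generalisation of L5helper9/Nf3.lean)
-/

set_option autoImplicit false
set_option linter.unusedSectionVars false

namespace Pool.Agent.L5helper67.NfLow

open Polynomial Module NumberField
open Pool.Agent.L5helper9.Nk

/-- the statement of JOB 6 (`reps2K`) for one field -/
def Reps2K (K : Type) [Field K] [NumberField K] : Prop :=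
  ∀ {t m n p : ℕ} (_ : p.Prime) (_ : 1 ≤ t)
    (_ : 1 ≤ m) (_ : 2 ≤ n) {J : ℝ} (_ : 1 ≤ J) (ψ : 𝓞 K →+* ZMod (p ^ 2)) (r : ℤ)
    (_ : ∀ ρ : ZMod p, ∃ A : (𝓞 K)[X], SmK t m (J * t ^ n) A ∧ ev1 ψ r A = ρ)
    (ρ0 : ZMod (p ^ 2)) (ρ1 : ZMod p),
    ∃ h : (𝓞 K)[X], SmK t (m + m) ((J + 2 * (m + 1) * (2 * J + 1) * J) * t ^ (2 * n)) h ∧
      ev ψ r h = ρ0 ∧ ev1 ψ r h.derivative = ρ1

lemma sum_exp2 (n : ℕ) : ∑ i ∈ Finset.range n, 2 * (n - i) = n * (n + 1) := by
  have h1 : ∑ i ∈ Finset.range n, 2 * (n - i) = ∑ i ∈ Finset.range n, 2 * (i + 1) := by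
    rw [← Finset.sum_range_reflect]
    apply Finset.sum_congr rfl
    intro i hi
    rw [Finset.mem_range] at hi
    congr 1
    omega
  rw [h1]
  have : ∀ k : ℕ, ∑ i ∈ Finset.range k, 2 * (i + 1) = k * (k + 1) := by
    intro k
    induction k with
    | zero => simp
    | succ k ih => rw [Finset.sum_range_succ, ih]; ring
  exact this n

variable {K : Type} [Field K] [NumberField K]

lemma ev_add {p : ℕ} (ψ : 𝓞 K →+* ZMod (p ^ 2)) (r : ℤ) (A B : (𝓞 K)[X]) :
    ev ψ r (A + B) = ev ψ r A + ev ψ r B := by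
  simp only [ev, eval₂_add]

lemma ev_C_mul {p : ℕ} (ψ : 𝓞 K →+* ZMod (p ^ 2)) (r : ℤ) (q : ℕ) (A : (𝓞 K)[X]) :
    ev ψ r (C ((q : ℕ) : 𝓞 K) * A) = (q : ZMod (p ^ 2)) * ev ψ r A := by
  unfold ev
  rw [eval₂_mul, eval₂_C, map_natCast]

lemma ev1_add {p : ℕ} (ψ : 𝓞 K →+* ZMod (p ^ 2)) (r : ℤ) (A B : (𝓞 K)[X]) :
    ev1 ψ r (A + B) = ev1 ψ r A + ev1 ψ r B := by
  simp only [ev1, ev_add, map_add]

lemma ev1_C_mul {p : ℕ} (ψ : 𝓞 K →+* ZMod (p ^ 2)) (r : ℤ) (q : ℕ) (A : (𝓞 K)[X]) :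
    ev1 ψ r (C ((q : ℕ) : 𝓞 K) * A) = (q : ZMod p) * ev1 ψ r A := by
  unfold ev1
  rw [ev_C_mul, map_mul, map_natCast]

/-- the house of a small integral combination of the integral basis -/
lemma house_comb (c : Free.ChooseBasisIndex ℤ (𝓞 K) → ℤ) (T : ℝ) (hc : ∀ j, |(c j : ℝ)| ≤ T) :
    house (((RingOfIntegers.basis K).equivFun.symm c : 𝓞 K) : K) ≤
      T * ∑ j, house ((RingOfIntegers.basis K j : 𝓞 K) : K) := by
  rw [Basis.equivFun_symm_apply]
  have h1 : ((∑ j, c j • RingOfIntegers.basis K j : 𝓞 K) : K) =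
      ∑ j, ((c j : K) * ((RingOfIntegers.basis K j : 𝓞 K) : K)) := by
    simp only [RingOfIntegers.coe_eq_algebraMap]
    rw [map_sum]
    apply Finset.sum_congr rfl
    intro j _
    rw [map_zsmul, zsmul_eq_mul]
  rw [h1]
  refine (house_sum_le_sum_house _ _).trans ?_
  rw [Finset.mul_sum]
  apply Finset.sum_le_sum
  intro j _
  refine (house_mul_le _ _).trans ?_
  apply mul_le_mul_of_nonneg_right _ (house_nonneg _)
  rw [house_intCast]
  push_cast
  exact hc j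

theorem fam1K_of (K : Type) [Field K] [NumberField K] (hreps : Reps2K K) (n m q : ℕ) (hm1 : 1 ≤ m)
    (hm : 2 * m + 1 ≤ n) (hq : 1 ≤ q) (f0 : (𝓞 K)[X]) (hf0 : f0.Monic) (hf0n : f0.natDegree = n)
    (J : ℝ) (hJ : 1 ≤ J) :
    ∃ M : ℕ, 1 ≤ M ∧ ∀ (t p : ℕ) (ψ : 𝓞 K →+* ZMod (p ^ 2)) (r : ℤ), p.Prime → 2 ≤ t →
      Nat.Coprime q p →
      (∀ ρ : ZMod p, ∃ A : (𝓞 K)[X], SmK t m (J * t ^ n) A ∧ ev1 ψ r A = ρ) →
      ∃ F : Finset (𝓞 K)[X], t ^ (finrank ℚ K * (n * (n + 1))) ≤ F.card * p ^ 3 ∧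
        ∀ f ∈ F, f.Monic ∧ f.natDegree = n ∧
          (∀ i < n, house (f.coeff i : K) * (t : ℝ) ^ (2 * i) ≤ M * (t : ℝ) ^ (2 * n)) ∧
          (∃ g, f = f0 + C ((q : ℕ) : 𝓞 K) * g) ∧ ev ψ r f = 0 ∧ ev1 ψ r f.derivative = 0 := by
  classical
  -- constants
  obtain ⟨Ω, hΩ⟩ : ∃ Ω : ℝ, Ω = ∑ j, house ((RingOfIntegers.basis K j : 𝓞 K) : K) := ⟨_, rfl⟩
  have hΩ0 : 0 ≤ Ω := by rw [hΩ]; exact Finset.sum_nonneg fun j _ => house_nonneg _
  obtain ⟨c0, hc00, hc0⟩ : ∃ c0 : ℝ, 0 ≤ c0 ∧ ∀ i < n, house ((f0.coeff i : 𝓞 K) : K) ≤ c0 :=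
    ⟨∑ i ∈ Finset.range n, house ((f0.coeff i : 𝓞 K) : K),
      Finset.sum_nonneg fun j _ => house_nonneg _, fun i hi =>
      Finset.single_le_sum (f := fun i => house ((f0.coeff i : 𝓞 K) : K))
        (fun j _ => house_nonneg _) (Finset.mem_range.2 hi)⟩
  obtain ⟨J', hJ'⟩ : ∃ J' : ℝ, J' = J + 2 * (m + 1) * (2 * J + 1) * J := ⟨_, rfl⟩
  obtain ⟨M, hM⟩ := exists_nat_ge (c0 + q * (Ω + J'))
  refine ⟨M + 1, by omega, ?_⟩
  intro t p ψ r hp ht hqp hrep
  have hn1 : 1 ≤ n := by omega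
  have : NeZero p := ⟨hp.ne_zero⟩
  have : NeZero (p ^ 2) := ⟨pow_ne_zero 2 hp.ne_zero⟩
  -- inverse of `q`
  obtain ⟨q', hq'⟩ : ∃ q' : ZMod (p ^ 2), (q : ZMod (p ^ 2)) * q' = 1 :=
    ⟨_, ZMod.coe_mul_inv_eq_one q (Nat.Coprime.pow_right 2 hqp)⟩
  obtain ⟨q1, hq1⟩ : ∃ q1 : ZMod p, (q : ZMod p) * q1 = 1 := ⟨_, ZMod.coe_mul_inv_eq_one q hqp⟩
  have hrep2 := fun (ρ0 : ZMod (p ^ 2)) (ρ1 : ZMod p) =>
    hreps (t := t) (m := m) (n := n) hp (by omega) hm1 (by omega) hJ ψ r hrep ρ0 ρ1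
  choose H hH1 hH2 hH3 using hrep2
  -- the polynomials
  set b := RingOfIntegers.basis K with hb
  set W : (Fin n → (Free.ChooseBasisIndex ℤ (𝓞 K) → ℤ)) → (𝓞 K)[X] := fun v =>
    ofFn n fun i => b.equivFun.symm (v i) with hW
  set G : (Fin n → (Free.ChooseBasisIndex ℤ (𝓞 K) → ℤ)) → (𝓞 K)[X] := fun v =>
    f0 + Polynomial.C ((q : ℕ) : 𝓞 K) * W v with hG
  set κ : (Fin n → (Free.ChooseBasisIndex ℤ (𝓞 K) → ℤ)) → ZMod (p ^ 2) × ZMod p := fun v =>
    (q' * (-(ev ψ r (G v))), q1 * (-(ev1 ψ r (G v).derivative))) with hκ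
  set F : (Fin n → (Free.ChooseBasisIndex ℤ (𝓞 K) → ℤ)) → (𝓞 K)[X] := fun v =>
    G v + Polynomial.C ((q : ℕ) : 𝓞 K) * H (κ v).1 (κ v).2 with hF
  set P : Finset (Fin n → (Free.ChooseBasisIndex ℤ (𝓞 K) → ℤ)) := Fintype.piFinset fun i : Fin n =>
    Fintype.piFinset fun _ : Free.ChooseBasisIndex ℤ (𝓞 K) =>
    Finset.Ico 0 ((t : ℤ) ^ (2 * (n - (i : ℕ)))) with hP
  have hrk : Fintype.card (Free.ChooseBasisIndex ℤ (𝓞 K)) = finrank ℚ K := by
    rw [← RingOfIntegers.rank, ← Module.finrank_eq_card_chooseBasisIndex]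
  have hPcard : P.card = t ^ (finrank ℚ K * (n * (n + 1))) := by
    rw [hP, Fintype.card_piFinset]
    have h1 : ∀ i : Fin n, (Fintype.piFinset fun _ : Free.ChooseBasisIndex ℤ (𝓞 K) =>
        Finset.Ico 0 ((t : ℤ) ^ (2 * (n - (i : ℕ))))).card =
        (t ^ (finrank ℚ K)) ^ (2 * (n - (i : ℕ))) := by
      intro i
      rw [Fintype.card_piFinset, Finset.prod_const, Finset.card_univ, hrk, Int.card_Ico, sub_zero]
      have : ((t : ℤ) ^ (2 * (n - (i : ℕ)))) = ((t ^ (2 * (n - (i : ℕ))) : ℕ) : ℤ) := by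
        push_cast; ring
      rw [this, Int.toNat_natCast, ← pow_mul, ← pow_mul, mul_comm]
    rw [Finset.prod_congr rfl fun i _ => h1 i]
    rw [Fin.prod_univ_eq_prod_range (fun i => (t ^ (finrank ℚ K)) ^ (2 * (n - i))),
      Finset.prod_pow_eq_pow_sum, sum_exp2, ← pow_mul]
  have hq0K : ((q : ℕ) : 𝓞 K) ≠ 0 := by
    have : (q : ℕ) ≠ 0 := by omega
    exact_mod_cast this
  refine ⟨P.image F, ?_, ?_⟩
  · -- the count
    have h1 : P.card ≤ ((P.image F) ×ˢ (Finset.univ : Finset (ZMod (p ^ 2) × ZMod p))).card := by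
      apply Finset.card_le_card_of_injOn (fun v => (F v, κ v))
      · intro v hv
        simp only [Finset.coe_product, Finset.coe_image, Finset.coe_univ, Set.mem_prod,
          Set.mem_univ, and_true]
        exact ⟨v, hv, rfl⟩
      · intro v _ w _ hvw
        simp only [Prod.mk.injEq] at hvw
        have h2 : G v = G w := by
          have h3 : F v = F w := hvw.1
          have h4 : κ v = κ w := by
            exact hvw.2
          simp only [hF] at h3
          rw [h4] at h3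
          exact add_right_cancel h3
        simp only [hG] at h2
        have h3 : Polynomial.C ((q : ℕ) : 𝓞 K) * W v = Polynomial.C ((q : ℕ) : 𝓞 K) * W w :=
          add_left_cancel h2
        have h4 : (Polynomial.C ((q : ℕ) : 𝓞 K)) ≠ 0 := by
          rw [Ne, C_eq_zero]
          exact hq0K
        have h5 := injective_ofFn (R := 𝓞 K) n (mul_left_cancel₀ h4 h3)
        funext i
        exact b.equivFun.symm.injective (congrFun h5 i)
    rw [hPcard, Finset.card_product, Finset.card_univ, Fintype.card_prod, ZMod.card, ZMod.card] at h1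
    calc t ^ (finrank ℚ K * (n * (n + 1))) ≤ _ := h1
      _ = _ := by ring
  · intro f hf
    rw [Finset.mem_image] at hf
    obtain ⟨v, hv, rfl⟩ := hf
    rw [hP, Fintype.mem_piFinset] at hv
    have hdv : (W v).natDegree < n := ofFn_natDegree_lt hn1 _
    have hdH : (H (κ v).1 (κ v).2).natDegree ≤ m + m := (hH1 _ _).1
    have hsum : F v = f0 + Polynomial.C ((q : ℕ) : 𝓞 K) * (W v + H (κ v).1 (κ v).2) := by
      simp only [hF, hG]
      ring
    have hdeg : (Polynomial.C ((q : ℕ) : 𝓞 K) * (W v + H (κ v).1 (κ v).2)).natDegree < n := by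
      refine lt_of_le_of_lt (natDegree_C_mul_le _ _) ?_
      refine lt_of_le_of_lt (natDegree_add_le _ _) ?_
      rw [max_lt_iff]
      exact ⟨hdv, by omega⟩
    have hlt : (Polynomial.C ((q : ℕ) : 𝓞 K) * (W v + H (κ v).1 (κ v).2)).degree < f0.degree := by
      apply degree_lt_degree
      rw [hf0n]
      exact hdeg
    refine ⟨?_, ?_, ?_, ⟨_, hsum⟩, ?_, ?_⟩
    · rw [hsum]
      exact hf0.add_of_left hlt
    · rw [hsum, natDegree_add_eq_left_of_natDegree_lt (by rw [hf0n]; exact hdeg), hf0n]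
    · intro i hi
      rw [hsum, coeff_add, coeff_C_mul, coeff_add]
      have ht0 : (1 : ℝ) ≤ t := by exact_mod_cast (by omega : 1 ≤ t)
      have h1 : house (((W v).coeff i : 𝓞 K) : K) * (t : ℝ) ^ (2 * i) ≤ Ω * t ^ (2 * n) := by
        have e1 : (W v).coeff i = b.equivFun.symm (v ⟨i, hi⟩) := by
          rw [hW]; exact ofFn_coeff_eq_val_of_lt _ hi
        rw [e1]
        have h2 := hv ⟨i, hi⟩
        rw [Fintype.mem_piFinset] at h2
        have h3 := house_comb (K := K) (v ⟨i, hi⟩) ((t : ℝ) ^ (2 * (n - i))) (by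
          intro j
          have h4 := h2 j
          rw [Finset.mem_Ico] at h4
          rw [abs_of_nonneg (by exact_mod_cast h4.1)]
          have h5 := h4.2.le
          simp only at h5
          exact_mod_cast h5)
        rw [← hb, ← hΩ] at h3
        calc house ((b.equivFun.symm (v ⟨i, hi⟩) : 𝓞 K) : K) * (t : ℝ) ^ (2 * i)
            ≤ ((t : ℝ) ^ (2 * (n - i)) * Ω) * (t : ℝ) ^ (2 * i) :=
              mul_le_mul_of_nonneg_right h3 (by positivity)
          _ = Ω * ((t : ℝ) ^ (2 * (n - i)) * (t : ℝ) ^ (2 * i)) := by ring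
          _ = Ω * t ^ (2 * n) := by
              rw [← pow_add]
              congr 2
              omega
      have h2 : house (((H (κ v).1 (κ v).2).coeff i : 𝓞 K) : K) * (t : ℝ) ^ (2 * i) ≤
          J' * t ^ (2 * n) := by
        rw [hJ']
        exact (hH1 _ _).2 i
      have h3 : house ((f0.coeff i : 𝓞 K) : K) * (t : ℝ) ^ (2 * i) ≤ c0 * t ^ (2 * n) := by
        apply mul_le_mul (hc0 i hi) _ (by positivity) (by positivity)
        exact pow_le_pow_right₀ ht0 (by omega)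
      have h4 : house (((f0.coeff i + ((q : ℕ) : 𝓞 K) * ((W v).coeff i +
          (H (κ v).1 (κ v).2).coeff i) : 𝓞 K)) : K) ≤
          house ((f0.coeff i : 𝓞 K) : K) + q * (house (((W v).coeff i : 𝓞 K) : K) +
            house (((H (κ v).1 (κ v).2).coeff i : 𝓞 K) : K)) := by
        simp only [RingOfIntegers.coe_eq_algebraMap]
        rw [map_add, map_mul, map_add, map_natCast]
        refine (house_add_le _ _).trans ?_
        rw [house_nat_mul]
        gcongr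
        exact house_add_le _ _
      have h5 : (0 : ℝ) ≤ (t : ℝ) ^ (2 * i) := by positivity
      have hq0 : (0 : ℝ) ≤ q := by positivity
      have h6 : (0 : ℝ) < (t : ℝ) ^ (2 * n) := by positivity
      calc _ ≤ (house ((f0.coeff i : 𝓞 K) : K) + q * (house (((W v).coeff i : 𝓞 K) : K) +
            house (((H (κ v).1 (κ v).2).coeff i : 𝓞 K) : K))) *
            (t : ℝ) ^ (2 * i) := mul_le_mul_of_nonneg_right h4 h5
        _ = house ((f0.coeff i : 𝓞 K) : K) * (t : ℝ) ^ (2 * i) +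
            q * (house (((W v).coeff i : 𝓞 K) : K) * (t : ℝ) ^ (2 * i) +
            house (((H (κ v).1 (κ v).2).coeff i : 𝓞 K) : K) * (t : ℝ) ^ (2 * i)) := by ring
        _ ≤ c0 * t ^ (2 * n) + q * (Ω * t ^ (2 * n) + J' * t ^ (2 * n)) := by
            gcongr
        _ = (c0 + q * (Ω + J')) * t ^ (2 * n) := by ring
        _ ≤ ((M + 1 : ℕ) : ℝ) * t ^ (2 * n) := by
            apply mul_le_mul_of_nonneg_right _ h6.le
            push_cast
            linarith
    · -- value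
      have h1 := hH2 (κ v).1 (κ v).2
      have h3 : ev ψ r (F v) = ev ψ r (G v) + q * ev ψ r (H (κ v).1 (κ v).2) := by
        simp only [hF]
        rw [ev_add, ev_C_mul]
      rw [h3, h1]
      simp only [hκ]
      linear_combination (-(ev ψ r (G v))) * hq'
    · have h1 := hH3 (κ v).1 (κ v).2
      have h3 : ev1 ψ r (F v).derivative = ev1 ψ r (G v).derivative +
          q * ev1 ψ r (H (κ v).1 (κ v).2).derivative := by
        simp only [hF]
        rw [derivative_add, ev1_add, derivative_C_mul, ev1_C_mul]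
      rw [h3, h1]
      simp only [hκ]
      linear_combination (-(ev1 ψ r (G v).derivative)) * hq1

end Pool.Agent.L5helper67.NfLow
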